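import Pool.Agent.H677R3.FIZero

/-!
# Projective dimension along finitely generated FI- and OI-modules is not eventually linear

For every field `K` and every `c ≥ 1` there is a finitely generated FI-module `M` over
`P = (X^1)^{⊗ c}`, still finitely generated as an OI-module, such that `n ↦ pd M_n` is not
eventually linear.

The module has generators `nu_i`, `e_j` (`i, j ∈ [n]`) and relations `f(x_k) e_j = 0` for
`k ≠ j` and `f(x_j) nu_i = (δ_{ij} + w(x_i)) e_j`, where `x_j = x_{1,j}`.
In characteristic `p` one takes `f = X`, `w = 1` and the projective dimension is at least `n`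
if `n ≡ -1` mod `p` and less than `n` otherwise.
In characteristic zero one takes `f = X^2 - 1`, `w = X` and it is at least `n` for odd `n`
and less than `n` for even `n`.
-/

open CategoryTheory MvPolynomial H677R3

universe u

namespace Pool.Agent.Results.MP_a29b63_ag.PdNotEventuallyLinear

theorem result (K : Type u) [Field K] (c : ℕ) (hc : 1 ≤ c) :
    ∃ M : FIModule K c, M.FinGen ∧ ¬ EventuallyLinear M.pd ∧
      M.toOI.FinGen ∧ ¬ EventuallyLinear M.toOI.pd := by
  obtain ⟨p, hp⟩ := CharP.exists K
  have i0 : Fin c := ⟨0, hc⟩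
  rcases Nat.eq_zero_or_pos p with h0 | h0
  · subst h0
    have hz : CharZero K := CharP.charP_to_charZero K
    refine ⟨exMod (sq1 K) Polynomial.X i0, exMod_finGen _ _ _, ?_, exMod_toOI_finGen _ _ _, ?_⟩
    all_goals
      refine not_eventuallyLinear (exMod (sq1 K) Polynomial.X i0) ?_ ?_
      · intro N
        exact ⟨2 * N + 1, by omega, exMod_low_zero i0 N⟩
      · intro N
        exact ⟨2 * N, by omega, exMod_up_zero i0 (2 * N) (even_two_mul N)⟩
  · have hlow : ∀ N : ℕ, ∃ n, N ≤ n ∧ ¬ HasProjectiveDimensionLT (ModuleCat.of (PolyAlg K c n)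
        ((exMod (Polynomial.X : Polynomial K) 1 i0).obj n)) n := by
      intro N
      have h1 : N + 2 ≤ p * (N + 2) := Nat.le_mul_of_pos_left _ h0
      refine ⟨p * (N + 2) - 1, by omega, exMod_low_p i0 _ ?_ (by omega)⟩
      have h2 : ((p * (N + 2) - 1 : ℕ) : K) + 1 = ((p * (N + 2) - 1 + 1 : ℕ) : K) := by
        push_cast; rfl
      rw [h2, Nat.sub_add_cancel (by omega), Nat.cast_mul, CharP.cast_eq_zero, zero_mul]
    have hup : ∀ N : ℕ, ∃ n, N ≤ n ∧ HasProjectiveDimensionLT (ModuleCat.of (PolyAlg K c n)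
        ((exMod (Polynomial.X : Polynomial K) 1 i0).obj n)) n := by
      intro N
      refine ⟨p * N, Nat.le_mul_of_pos_left _ h0, exMod_up_p i0 _ ?_⟩
      rw [Nat.cast_mul, CharP.cast_eq_zero, zero_mul, zero_add]
      exact one_ne_zero
    exact ⟨exMod Polynomial.X 1 i0, exMod_finGen _ _ _,
      not_eventuallyLinear _ hlow hup, exMod_toOI_finGen _ _ _,
      not_eventuallyLinear (exMod Polynomial.X 1 i0) hlow hup⟩

end Pool.Agent.Results.MP_a29b63_ag.PdNotEventuallyLinear
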